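import Pool.Agent.Q23.PP.Stm

set_option autoImplicit false

open scoped Matrix

namespace Pool.Agent.Q40.PP.Dual1

open Pool.Agent.Q23.PP
open Pool.Agent.H919R4.ZS (FinRes toRed RedC augm)
open Pool.Agent.TH38.CX (Res ExR PM Triv sumMap Bdd pm_single_smul)
open Pool.Agent.TH38.ZT (ExAt)
open Pool.Agent.Q169.PT.Du (sg dm' sv sv_sv sv_zero sv_inj vecMul_dm' iff_dual of_coh coh_iff
  sg_single w_inv w_sq)

noncomputable section

variable {G : Type} [Group G]

section sub

variable {α β : Type} [Fintype α] {a b : ℕ}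

lemma vm_empty {α β : Type} [Fintype α] [IsEmpty α] (y : α → MonoidAlgebra ℤ G)
    (D : Matrix α β (MonoidAlgebra ℤ G)) : y ᵥ* D = 0 := by
  funext j
  simp [Matrix.vecMul, dotProduct]

lemma sub_zero_iff (D : Matrix (Fin a) (Fin b) (MonoidAlgebra ℤ G)) (e1 : α ≃ Fin a)
    (e2 : β ≃ Fin b) (x : α → MonoidAlgebra ℤ G) :
    x ᵥ* D.submatrix e1 e2 = 0 ↔ (x ∘ e1.symm) ᵥ* D = 0 := by
  rw [Matrix.submatrix_vecMul_equiv]
  constructor
  · intro h
    funext j
    have := congrFun h (e2.symm j)
    simpa using this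
  · intro h
    rw [h]
    rfl

lemma sub_ex_iff (D : Matrix (Fin a) (Fin b) (MonoidAlgebra ℤ G)) (e1 : α ≃ Fin a)
    (e2 : β ≃ Fin b) (x : β → MonoidAlgebra ℤ G) :
    (∃ y, y ᵥ* D.submatrix e1 e2 = x) ↔ ∃ y, y ᵥ* D = x ∘ e2.symm := by
  constructor
  · rintro ⟨y, rfl⟩
    refine ⟨y ∘ e1.symm, ?_⟩
    rw [Matrix.submatrix_vecMul_equiv]
    funext j
    simp
  · rintro ⟨y, hy⟩
    refine ⟨y ∘ e1, ?_⟩
    rw [Matrix.submatrix_vecMul_equiv]
    have : (y ∘ e1) ∘ e1.symm = y := by
      funext j; simp
    rw [this, hy]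
    funext j
    simp

end sub

variable (X : FinRes G) (k : ℕ)

/-- the ranks -/
def nn (i : ℕ) : ℕ := if i ≤ k + 1 then X.n (k + 1 - i) else 0

lemma nn_eq (i l : ℕ) (h : l + i = k + 1) : nn X k i = X.n l := by
  have h1 : k + 1 - i = l := by omega
  rw [nn, if_pos (by omega), h1]

lemma nn_zero (i : ℕ) (h : k + 1 < i) : nn X k i = 0 := by
  rw [nn, if_neg (by omega)]

/-- the bases are the same -/
def qq (i l : ℕ) (h : l + i = k + 1) : Fin (nn X k i) ≃ Fin (X.n l) := finCongr (nn_eq X k i l h)

variable (w : G →* ℤˣ)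

/-- the differentials -/
def dd (i : ℕ) : Matrix (Fin (nn X k (i + 1))) (Fin (nn X k i)) (MonoidAlgebra ℤ G) :=
  if h : i ≤ k then (dm' w (X.d (k - i))).submatrix (qq X k (i + 1) (k - i) (by omega))
    (qq X k i (k - i + 1) (by omega)) else 0

lemma dd_eq (i l : ℕ) (h : l + i = k) : dd X k w i =
    (dm' w (X.d l)).submatrix (qq X k (i + 1) l (by omega)) (qq X k i (l + 1) (by omega)) := by
  obtain rfl : l = k - i := by omega
  rw [dd, dif_pos (by omega)]

lemma isEmpty_nn (i : ℕ) (h : k + 1 < i) : IsEmpty (Fin (nn X k i)) := by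
  rw [nn_zero X k i h]
  infer_instance

variable {E : Type} [MulAction G E]

lemma ev_dual (n : ℕ) (ev : (Fin n → MonoidAlgebra ℤ G) →+ (E →₀ ℤ))
    (hs : ∀ y g, ev (fun j => y j * MonoidAlgebra.single g 1) =
      (w g : ℤ) • (ev y).mapDomain fun e => g⁻¹ • e)
    (x : Fin n → MonoidAlgebra ℤ G) :
    ∑ j, x j • (show PM G E from ev (Pi.single j 1)) = (show PM G E from ev (sv w x)) := by
  have h1 : ∀ (j : Fin n) (a : MonoidAlgebra ℤ G),
      (show PM G E from ev (Pi.single j (sg w a))) = a • (show PM G E from ev (Pi.single j 1)) := by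
    intro j a
    induction a using MonoidAlgebra.induction_linear with
    | zero =>
      rw [map_zero, Pi.single_zero, zero_smul]
      exact map_zero ev
    | add a b ha hb =>
      rw [map_add, Pi.single_add, add_smul, ← ha, ← hb]
      exact map_add ev _ _
    | single g r =>
      rw [pm_single_smul, sg_single]
      have e1 : (Pi.single j (MonoidAlgebra.single g⁻¹ ((w g : ℤ) * r)) :
          Fin n → MonoidAlgebra ℤ G) = ((w g : ℤ) * r) •
            (fun i => (Pi.single j 1 : Fin n → MonoidAlgebra ℤ G) i *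
              MonoidAlgebra.single g⁻¹ 1) := by
        funext i
        rw [Pi.smul_apply]
        by_cases hi : i = j
        · subst hi
          rw [Pi.single_eq_same, Pi.single_eq_same, one_mul, MonoidAlgebra.smul_single,
            smul_eq_mul, mul_one]
        · rw [Pi.single_eq_of_ne hi, Pi.single_eq_of_ne hi, zero_mul, smul_zero]
      have e2 : ev (Pi.single j (MonoidAlgebra.single g⁻¹ ((w g : ℤ) * r))) =
          r • Finsupp.mapDomain (fun e => g • e) (ev (Pi.single j 1)) := by
        rw [e1, map_zsmul, hs, w_inv, smul_smul, inv_inv]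
        congr 1
        linear_combination r * w_sq w g
      exact e2
  have h2 : sv w x = ∑ j, Pi.single j (sg w (x j)) := (Finset.univ_sum_single (sv w x)).symm
  have h3 : ev (sv w x) = ∑ j, ev (Pi.single j (sg w (x j))) := by
    rw [h2, map_sum]
  change _ = (ev (sv w x) : E →₀ ℤ)
  rw [h3]
  exact Finset.sum_congr rfl fun j _ => (h1 j (x j)).symm

/-- JOB DUAL1 -/
theorem dual1 : S_dual1 := by
  intro G _ X k hlen hc w E _ ev hT
  have hmem : ∀ y, (show PM G E from ev y) ∈ Delta G E := by
    intro y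
    exact (hT.range (ev y)).2 ⟨y, rfl⟩
  have h01 : (k + 1) + 0 = k + 1 := by omega
  let q0 : Fin (nn X k 0) ≃ Fin (X.n (k + 1)) := qq X k 0 (k + 1) h01
  let aug : Fin (nn X k 0) → Delta G E := fun j => ⟨ev (Pi.single (q0 j) 1), hmem _⟩
  have haug : ∀ x : Fin (nn X k 0) → MonoidAlgebra ℤ G,
      ((∑ j, x j • aug j : Delta G E) : PM G E) = (show PM G E from ev (sv w (x ∘ q0.symm))) := by
    intro x
    rw [← ev_dual w _ ev hT.smul, ← q0.sum_comp, AddSubmonoidClass.coe_finsetSum]
    refine Finset.sum_congr rfl fun j _ => ?_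
    rw [Function.comp_apply, Equiv.symm_apply_apply]
    rfl
  have hz : ∀ x : Fin (nn X k 0) → MonoidAlgebra ℤ G,
      ∑ j, x j • aug j = 0 ↔ ev (sv w (x ∘ q0.symm)) = 0 := by
    intro x
    rw [← Submodule.coe_eq_zero, haug x]
    exact Iff.rfl
  let R : Res G (Delta G E) :=
    { ι := fun i => Fin (nn X k i)
      fin := fun i => inferInstance
      d := dd X k w
      aug := aug
      surj := by
        rintro ⟨m, hm⟩
        obtain ⟨y, hy⟩ := (hT.range m).1 hm
        refine ⟨sv w y ∘ q0, ?_⟩
        apply Subtype.ext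
        rw [haug]
        have : (sv w y ∘ q0) ∘ q0.symm = sv w y := by
          funext j; simp
        rw [this, sv_sv]
        exact hy
      exact_zero := by
        intro x
        rw [hz x, hT.ker, dd_eq X k w 0 k (by omega), sub_ex_iff]
        constructor
        · rintro ⟨z, hz⟩
          refine ⟨sv w z, ?_⟩
          rw [vecMul_dm', sv_sv, hz, sv_sv]
        · rintro ⟨y, hy⟩
          refine ⟨sv w y, ?_⟩
          have h1 : y ᵥ* dm' w (X.d k) = x ∘ q0.symm := hy
          rw [← h1, vecMul_dm', sv_sv]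
      exact_succ := by
        intro i x
        rcases Nat.lt_trichotomy i k with hi | hi | hi
        · obtain ⟨l, hl⟩ : ∃ l, (l + 1) + i = k := ⟨k - i - 1, by omega⟩
          rw [dd_eq X k w i (l + 1) hl, dd_eq X k w (i + 1) l (by omega), sub_zero_iff, sub_ex_iff]
          exact iff_dual w (X.d (l + 1)) (X.d l) (coh_iff X l (hc (l + 1) (by omega))) _
        · subst hi
          have h2 : IsEmpty (Fin (nn X i (i + 1 + 1))) := isEmpty_nn X i _ (by omega)
          rw [dd_eq X i w i 0 (by omega), sub_zero_iff]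
          constructor
          · intro hx
            refine ⟨fun j => h2.elim j, ?_⟩
            have h3 : x ∘ (qq X i (i + 1) 0 (by omega)).symm = 0 := by
              rw [vecMul_dm'] at hx
              have h1 : X.d 0 *ᵥ sv w (x ∘ (qq X i (i + 1) 0 (by omega)).symm) = 0 := by
                apply sv_inj w
                rw [hx, sv_zero]
              have h4 : sv w (x ∘ (qq X i (i + 1) 0 (by omega)).symm) ∈
                  (⊥ : AddSubgroup (Fin (X.n 0) → MonoidAlgebra ℤ G)) :=
                of_coh X 0 (hc 0 (by omega)) _ h1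
              rw [AddSubgroup.mem_bot] at h4
              apply sv_inj w
              rw [h4, sv_zero]
            funext j
            have h5 := congrFun h3 (qq X i (i + 1) 0 (by omega) j)
            rw [Function.comp_apply, Equiv.symm_apply_apply] at h5
            rw [h5, vm_empty]
            rfl
          · rintro ⟨y, rfl⟩
            rw [vm_empty y (dd X i w (i + 1))]
            exact Matrix.zero_vecMul _
        · have h1 : IsEmpty (Fin (nn X k (i + 1))) := isEmpty_nn X k _ (by omega)
          constructor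
          · intro _
            exact ⟨0, funext fun j => h1.elim j⟩
          · intro _
            exact vm_empty x _ }
  refine ⟨R, fun i l h => qq X k i l h, ?_, ?_⟩
  · intro i hi
    exact isEmpty_nn X k i hi
  · intro i l h
    exact dd_eq X k w i l h

end

end Pool.Agent.Q40.PP.Dual1
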